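import Mathlib

namespace Pool.Agent.Results.MP_ce47b3_al.RetractNotFree

open Polynomial

universe u w

/-- The multiset of variables of a nonassociative monomial. -/
def varsOf : FreeMagma ℕ → Multiset ℕ
  | .of i => {i}
  | .mul a b => varsOf a + varsOf b

section Defs

variable (k : Type u) [CommRing k]

/-- An identity is multilinear when there is a finite set `S` of variables such that every
monomial occurring in it contains every variable of `S` exactly once and no other variable. -/
def IsMultilinear (f : FreeNonUnitalNonAssocAlgebra k ℕ) : Prop :=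
  ∃ S : Finset ℕ, ∀ m ∈ f.coeff.support, varsOf m = S.val

/-- The algebra `A` lies in the variety cut out by the set `I` of identities: every identity
of `I` vanishes under every substitution of elements of `A` for the variables. -/
def InVariety (I : Set (FreeNonUnitalNonAssocAlgebra k ℕ)) (A : Type u)
    [NonUnitalNonAssocRing A] [Module k A] [IsScalarTower k A A] [SMulCommClass k A A] : Prop :=
  ∀ f ∈ I, ∀ v : ℕ → A, FreeNonUnitalNonAssocAlgebra.lift k v f = 0

/-- `F` together with `ι : X → F` is the free algebra on `X` of the variety cut out by `I`. -/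
structure IsFreeOn (I : Set (FreeNonUnitalNonAssocAlgebra k ℕ)) {X : Type w} (F : Type u)
    [NonUnitalNonAssocRing F] [Module k F] [IsScalarTower k F F] [SMulCommClass k F F]
    (ι : X → F) : Prop where
  mem : InVariety k I F
  univ : ∀ (A : Type u) [NonUnitalNonAssocRing A] [Module k A] [IsScalarTower k A A]
    [SMulCommClass k A A], InVariety k I A →
      ∀ v : X → A, ∃! φ : F →ₙₐ[k] A, ∀ x, φ (ι x) = v x

end Defs

section General

variable {k : Type u} [CommRing k] {I : Set (FreeNonUnitalNonAssocAlgebra k ℕ)}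

theorem map_lift {A B : Type*} [NonUnitalNonAssocRing A] [Module k A] [IsScalarTower k A A]
    [SMulCommClass k A A] [NonUnitalNonAssocRing B] [Module k B] [IsScalarTower k B B]
    [SMulCommClass k B B] {X : Type*} (φ : A →ₙₐ[k] B) (v : X → A)
    (f : FreeNonUnitalNonAssocAlgebra k X) :
    φ (FreeNonUnitalNonAssocAlgebra.lift k v f) =
      FreeNonUnitalNonAssocAlgebra.lift k (fun n => φ (v n)) f := by
  have : φ.comp (FreeNonUnitalNonAssocAlgebra.lift k v) =
      FreeNonUnitalNonAssocAlgebra.lift k (fun n => φ (v n)) := by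
    apply FreeNonUnitalNonAssocAlgebra.hom_ext
    intro x
    simp
  exact DFunLike.congr_fun this f

/-- Subalgebras of algebras in the variety are in the variety. -/
theorem sub_inVariety {A : Type u} [NonUnitalNonAssocRing A] [Module k A] [IsScalarTower k A A]
    [SMulCommClass k A A] (hA : InVariety k I A) (S : NonUnitalSubalgebra k A) :
    InVariety k I S := by
  intro f hf v
  have h := map_lift (NonUnitalSubalgebraClass.subtype S) v f
  rw [hA f hf] at h
  exact Subtype.ext h

/-- A free algebra is generated by its free generators. -/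
theorem mem_of_gen {X : Type w} {F : Type u} [NonUnitalNonAssocRing F] [Module k F]
    [IsScalarTower k F F] [SMulCommClass k F F] {ι : X → F} (h : IsFreeOn k I F ι)
    (S : NonUnitalSubalgebra k F) (hS : ∀ x, ι x ∈ S) (a : F) : a ∈ S := by
  obtain ⟨φ, hφ, -⟩ := h.univ S (sub_inVariety h.mem S) (fun x => ⟨ι x, hS x⟩)
  obtain ⟨ψ, -, hψ⟩ := h.univ F h.mem ι
  have h1 := hψ ((NonUnitalSubalgebraClass.subtype S).comp φ) (fun x => by
    show ((φ (ι x) : S) : F) = ι x
    rw [hφ x])
  have h2 := hψ (NonUnitalAlgHom.id k F) (fun x => rfl)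
  have h3 : ((φ a : S) : F) = a := by
    have := DFunLike.congr_fun (h1.trans h2.symm) a
    exact this
  rw [← h3]
  exact (φ a).2

/-- Being free is invariant under isomorphism. -/
theorem transport {X : Type w} {F G : Type u} [NonUnitalNonAssocRing F] [Module k F]
    [IsScalarTower k F F] [SMulCommClass k F F] [NonUnitalNonAssocRing G] [Module k G]
    [IsScalarTower k G G] [SMulCommClass k G G] {ι : X → F} (h : IsFreeOn k I F ι)
    (θ : F →ₙₐ[k] G) (ψ : G →ₙₐ[k] F) (h1 : ∀ x, θ (ψ x) = x) (h2 : ∀ x, ψ (θ x) = x) :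
    IsFreeOn k I G (fun x => θ (ι x)) := by
  constructor
  · intro f hf v
    rw [← h1 (FreeNonUnitalNonAssocAlgebra.lift k v f), map_lift, h.mem f hf, map_zero]
  · intro A _ _ _ _ hA v
    obtain ⟨φ, hφ, hu⟩ := h.univ A hA v
    refine ⟨φ.comp ψ, fun x => ?_, fun φ' hφ' => ?_⟩
    · show φ (ψ (θ (ι x))) = v x
      rw [h2, hφ]
    · have := hu (φ'.comp θ) (fun x => hφ' x)
      ext x
      rw [← this]
      show φ' x = φ' (θ (ψ x))
      rw [h1]

end General

noncomputable section Construction

variable {k : Type u} [CommRing k] (I : Set (FreeNonUnitalNonAssocAlgebra k ℕ)) (X : Type)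

/-- The elements of the absolutely free algebra that vanish in every algebra of the variety. -/
def kerV : Submodule k (FreeNonUnitalNonAssocAlgebra k X) where
  carrier := {x | ∀ (A : Type u) [NonUnitalNonAssocRing A] [Module k A] [IsScalarTower k A A]
    [SMulCommClass k A A], InVariety k I A →
      ∀ v : X → A, FreeNonUnitalNonAssocAlgebra.lift k v x = 0}
  zero_mem' := by
    intro A _ _ _ _ _ v
    exact map_zero _
  add_mem' := by
    intro a b ha hb A _ _ _ _ hA v
    rw [map_add, ha A hA v, hb A hA v, add_zero]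
  smul_mem' := by
    intro c a ha A _ _ _ _ hA v
    rw [map_smul, ha A hA v, smul_zero]

theorem mul_mem_kerV_left {x : FreeNonUnitalNonAssocAlgebra k X} (hx : x ∈ kerV I X)
    (y : FreeNonUnitalNonAssocAlgebra k X) : x * y ∈ kerV I X := by
  intro A _ _ _ _ hA v
  rw [map_mul, hx A hA v, zero_mul]

theorem mul_mem_kerV_right {x : FreeNonUnitalNonAssocAlgebra k X} (hx : x ∈ kerV I X)
    (y : FreeNonUnitalNonAssocAlgebra k X) : y * x ∈ kerV I X := by
  intro A _ _ _ _ hA v
  rw [map_mul, hx A hA v, mul_zero]

/-- The free algebra of the variety on `X`. -/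
def FreeV : Type u := (FreeNonUnitalNonAssocAlgebra k X) ⧸ kerV I X

instance : AddCommGroup (FreeV I X) :=
  inferInstanceAs (AddCommGroup ((FreeNonUnitalNonAssocAlgebra k X) ⧸ kerV I X))

instance : Module k (FreeV I X) :=
  inferInstanceAs (Module k ((FreeNonUnitalNonAssocAlgebra k X) ⧸ kerV I X))

/-- The quotient map. -/
def mkL : FreeNonUnitalNonAssocAlgebra k X →ₗ[k] FreeV I X := (kerV I X).mkQ

theorem mkL_surj : Function.Surjective (mkL I X) := (kerV I X).mkQ_surjective

theorem mkL_eq_iff {x y : FreeNonUnitalNonAssocAlgebra k X} :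
    mkL I X x = mkL I X y ↔ x - y ∈ kerV I X := Submodule.Quotient.eq _

instance : Mul (FreeV I X) :=
  ⟨fun a b => mkL I X (Function.surjInv (mkL_surj I X) a * Function.surjInv (mkL_surj I X) b)⟩

theorem mkL_mul (x y : FreeNonUnitalNonAssocAlgebra k X) :
    mkL I X (x * y) = mkL I X x * mkL I X y := by
  show mkL I X (x * y) = mkL I X (Function.surjInv (mkL_surj I X) (mkL I X x) *
    Function.surjInv (mkL_surj I X) (mkL I X y))
  rw [mkL_eq_iff]
  set x' := Function.surjInv (mkL_surj I X) (mkL I X x) with hx'
  set y' := Function.surjInv (mkL_surj I X) (mkL I X y) with hy'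
  have h1 : x - x' ∈ kerV I X := by
    rw [← mkL_eq_iff, hx']
    exact (Function.surjInv_eq (mkL_surj I X) _).symm
  have h2 : y - y' ∈ kerV I X := by
    rw [← mkL_eq_iff, hy']
    exact (Function.surjInv_eq (mkL_surj I X) _).symm
  have : x * y - x' * y' = (x - x') * y + x' * (y - y') := by
    rw [sub_mul, mul_sub]; abel
  rw [this]
  exact Submodule.add_mem _ (mul_mem_kerV_left I X h1 _) (mul_mem_kerV_right I X h2 _)

instance : NonUnitalNonAssocRing (FreeV I X) :=
  { (inferInstance : AddCommGroup (FreeV I X)), (inferInstance : Mul (FreeV I X)) with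
    left_distrib := by
      intro a b c
      obtain ⟨a, rfl⟩ := mkL_surj I X a
      obtain ⟨b, rfl⟩ := mkL_surj I X b
      obtain ⟨c, rfl⟩ := mkL_surj I X c
      show mkL I X a * (mkL I X b + mkL I X c) = mkL I X a * mkL I X b + mkL I X a * mkL I X c
      rw [← map_add, ← mkL_mul, ← mkL_mul, ← mkL_mul, ← map_add, mul_add]
    right_distrib := by
      intro a b c
      obtain ⟨a, rfl⟩ := mkL_surj I X a
      obtain ⟨b, rfl⟩ := mkL_surj I X b
      obtain ⟨c, rfl⟩ := mkL_surj I X c
      show (mkL I X a + mkL I X b) * mkL I X c = mkL I X a * mkL I X c + mkL I X b * mkL I X c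
      rw [← map_add, ← mkL_mul, ← mkL_mul, ← mkL_mul, ← map_add, add_mul]
    zero_mul := by
      intro a
      obtain ⟨a, rfl⟩ := mkL_surj I X a
      show (0 : FreeV I X) * mkL I X a = 0
      rw [← map_zero (mkL I X), ← mkL_mul, zero_mul]
    mul_zero := by
      intro a
      obtain ⟨a, rfl⟩ := mkL_surj I X a
      show mkL I X a * (0 : FreeV I X) = 0
      rw [← map_zero (mkL I X), ← mkL_mul, mul_zero] }

instance : IsScalarTower k (FreeV I X) (FreeV I X) := by
  constructor
  intro r a b
  obtain ⟨a, rfl⟩ := mkL_surj I X a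
  obtain ⟨b, rfl⟩ := mkL_surj I X b
  show (r • mkL I X a) * mkL I X b = r • (mkL I X a * mkL I X b)
  rw [← mkL_mul, ← map_smul, ← map_smul, ← mkL_mul, smul_mul_assoc]

instance : SMulCommClass k (FreeV I X) (FreeV I X) := by
  constructor
  intro r a b
  obtain ⟨a, rfl⟩ := mkL_surj I X a
  obtain ⟨b, rfl⟩ := mkL_surj I X b
  show r • (mkL I X a * mkL I X b) = mkL I X a * (r • mkL I X b)
  rw [← mkL_mul, ← map_smul, ← map_smul, ← mkL_mul, mul_smul_comm]

/-- The quotient map as a homomorphism of algebras. -/
def mkHom : FreeNonUnitalNonAssocAlgebra k X →ₙₐ[k] FreeV I X where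
  toFun := mkL I X
  map_smul' := fun c x => map_smul (mkL I X) c x
  map_zero' := map_zero _
  map_add' := map_add _
  map_mul' := mkL_mul I X

theorem mkHom_surj : Function.Surjective (mkHom I X) := mkL_surj I X

theorem mkHom_eq_zero {x : FreeNonUnitalNonAssocAlgebra k X} (hx : x ∈ kerV I X) :
    mkHom I X x = 0 := (Submodule.Quotient.mk_eq_zero _).2 hx

theorem freeV_inVariety : InVariety k I (FreeV I X) := by
  intro f hf v
  choose wv hw using fun n => mkHom_surj I X (v n)
  have : v = fun n => mkHom I X (wv n) := funext fun n => (hw n).symm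
  rw [this, ← map_lift]
  apply mkHom_eq_zero
  intro A _ _ _ _ hA u
  rw [map_lift]
  exact hA f hf _

/-- The map induced on the free algebra of the variety. -/
def indHom (A : Type u) [NonUnitalNonAssocRing A] [Module k A] [IsScalarTower k A A]
    [SMulCommClass k A A] (hA : InVariety k I A) (v : X → A) : FreeV I X →ₙₐ[k] A where
  toFun := (kerV I X).liftQ
    ((FreeNonUnitalNonAssocAlgebra.lift k v : FreeNonUnitalNonAssocAlgebra k X →ₙₐ[k] A) :
      FreeNonUnitalNonAssocAlgebra k X →ₗ[k] A) (fun x hx => hx A hA v)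
  map_smul' := fun c x => map_smul _ c x
  map_zero' := map_zero _
  map_add' := map_add _
  map_mul' := by
    intro a b
    obtain ⟨a, rfl⟩ := mkL_surj I X a
    obtain ⟨b, rfl⟩ := mkL_surj I X b
    rw [← mkL_mul]
    exact map_mul (FreeNonUnitalNonAssocAlgebra.lift k v) a b

theorem freeV_isFree : IsFreeOn k I (FreeV I X)
    (fun x : X => mkHom I X (FreeNonUnitalNonAssocAlgebra.of k x)) := by
  refine ⟨freeV_inVariety I X, ?_⟩
  intro A _ _ _ _ hA v
  refine ⟨indHom I X A hA v, fun x => ?_, fun φ hφ => ?_⟩
  · exact FreeNonUnitalNonAssocAlgebra.lift_of_apply k v x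
  · have h1 : φ.comp (mkHom I X) = (indHom I X A hA v).comp (mkHom I X) := by
      apply FreeNonUnitalNonAssocAlgebra.hom_ext
      intro x
      show φ (mkHom I X (FreeNonUnitalNonAssocAlgebra.of k x)) = _
      rw [hφ x]
      exact (FreeNonUnitalNonAssocAlgebra.lift_of_apply k v x).symm
    ext x
    obtain ⟨x, rfl⟩ := mkHom_surj I X x
    exact DFunLike.congr_fun h1 x

end Construction

noncomputable section Identities

variable (k : Type u) [CommRing k]

/-- A variable of the absolutely free algebra. -/
abbrev xv (i : ℕ) : FreeNonUnitalNonAssocAlgebra k ℕ := FreeNonUnitalNonAssocAlgebra.of k i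

/-- The three identities `(x0 x1)(x2 x3)`, `x0 ((x1 x2) x3)` and `(x0 (x1 x2)) x3`. -/
def theIds : Set (FreeNonUnitalNonAssocAlgebra k ℕ) :=
  {(xv k 0 * xv k 1) * (xv k 2 * xv k 3),
   xv k 0 * ((xv k 1 * xv k 2) * xv k 3),
   (xv k 0 * (xv k 1 * xv k 2)) * xv k 3}

theorem single_multilinear (m : FreeMagma ℕ) (S : Finset ℕ) (h : varsOf m = S.val) :
    IsMultilinear k (MonoidAlgebra.single m (1 : k)) := by
  refine ⟨S, fun m' hm' => ?_⟩
  rw [MonoidAlgebra.coeff_single] at hm'
  have := Finsupp.support_single_subset hm'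
  rw [Finset.mem_singleton] at this
  rw [this, h]

theorem xv_eq (i : ℕ) : xv k i = MonoidAlgebra.single (FreeMagma.of i) (1 : k) := rfl

theorem theIds_multilinear : ∀ f ∈ theIds k, IsMultilinear k f := by
  intro f hf
  simp only [theIds, Set.mem_insert_iff, Set.mem_singleton_iff] at hf
  rcases hf with rfl | rfl | rfl
  · simp only [xv_eq, MonoidAlgebra.single_mul_single, mul_one]
    exact single_multilinear k _ {0, 1, 2, 3} (by decide)
  · simp only [xv_eq, MonoidAlgebra.single_mul_single, mul_one]
    exact single_multilinear k _ {0, 1, 2, 3} (by decide)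
  · simp only [xv_eq, MonoidAlgebra.single_mul_single, mul_one]
    exact single_multilinear k _ {0, 1, 2, 3} (by decide)

theorem inVariety_iff (A : Type u) [NonUnitalNonAssocRing A] [Module k A] [IsScalarTower k A A]
    [SMulCommClass k A A] : InVariety k (theIds k) A ↔
      (∀ a b c d : A, (a * b) * (c * d) = 0) ∧ (∀ a b c d : A, a * ((b * c) * d) = 0) ∧
        (∀ a b c d : A, (a * (b * c)) * d = 0) := by
  constructor
  · intro h
    have key : ∀ a b c d : A, ∃ v : ℕ → A, v 0 = a ∧ v 1 = b ∧ v 2 = c ∧ v 3 = d := by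
      intro a b c d
      exact ⟨fun n => if n = 0 then a else if n = 1 then b else if n = 2 then c else d,
        by simp, by simp, by simp, by simp⟩
    refine ⟨fun a b c d => ?_, fun a b c d => ?_, fun a b c d => ?_⟩
    · obtain ⟨v, rfl, rfl, rfl, rfl⟩ := key a b c d
      have := h _ (show (xv k 0 * xv k 1) * (xv k 2 * xv k 3) ∈ theIds k by simp [theIds]) v
      simpa [map_mul] using this
    · obtain ⟨v, rfl, rfl, rfl, rfl⟩ := key a b c d
      have := h _ (show xv k 0 * ((xv k 1 * xv k 2) * xv k 3) ∈ theIds k by simp [theIds]) v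
      simpa [map_mul] using this
    · obtain ⟨v, rfl, rfl, rfl, rfl⟩ := key a b c d
      have := h _ (show (xv k 0 * (xv k 1 * xv k 2)) * xv k 3 ∈ theIds k by simp [theIds]) v
      simpa [map_mul] using this
  · rintro ⟨h1, h2, h3⟩ f hf v
    simp only [theIds, Set.mem_insert_iff, Set.mem_singleton_iff] at hf
    rcases hf with rfl | rfl | rfl
    · simp [map_mul, h1]
    · simp [map_mul, h2]
    · simp [map_mul, h3]

end Identities

noncomputable section Model

variable (k : Type u) [CommRing k]

/-- The algebra `B`: quadruples `(a, c, f, g)`; think of `c` as a common constant term of the two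
polynomials `c + X f` and `c + X g`. -/
def B : Type u := k × k × k[X] × k[X]

instance : AddCommGroup (B k) := inferInstanceAs (AddCommGroup (k × k × k[X] × k[X]))

instance : Module k (B k) := inferInstanceAs (Module k (k × k × k[X] × k[X]))

/-- First entry. -/
def pa (x : B k) : k := x.1
/-- Second entry. -/
def pc (x : B k) : k := x.2.1
/-- Third entry. -/
def pf (x : B k) : k[X] := x.2.2.1
/-- Fourth entry. -/
def pg (x : B k) : k[X] := x.2.2.2

/-- Build an element. -/
def mkB (a c : k) (f g : k[X]) : B k := (a, c, f, g)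

variable {k}

theorem B_ext {x y : B k} (h1 : pa k x = pa k y) (h2 : pc k x = pc k y) (h3 : pf k x = pf k y)
    (h4 : pg k x = pg k y) : x = y := Prod.ext h1 (Prod.ext h2 (Prod.ext h3 h4))

@[simp] theorem pa_mk (a c : k) (f g : k[X]) : pa k (mkB k a c f g) = a := rfl
@[simp] theorem pc_mk (a c : k) (f g : k[X]) : pc k (mkB k a c f g) = c := rfl
@[simp] theorem pf_mk (a c : k) (f g : k[X]) : pf k (mkB k a c f g) = f := rfl
@[simp] theorem pg_mk (a c : k) (f g : k[X]) : pg k (mkB k a c f g) = g := rfl
@[simp] theorem pa_add (x y : B k) : pa k (x + y) = pa k x + pa k y := rfl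
@[simp] theorem pc_add (x y : B k) : pc k (x + y) = pc k x + pc k y := rfl
@[simp] theorem pf_add (x y : B k) : pf k (x + y) = pf k x + pf k y := rfl
@[simp] theorem pg_add (x y : B k) : pg k (x + y) = pg k x + pg k y := rfl
@[simp] theorem pa_zero : pa k (0 : B k) = 0 := rfl
@[simp] theorem pc_zero : pc k (0 : B k) = 0 := rfl
@[simp] theorem pf_zero : pf k (0 : B k) = 0 := rfl
@[simp] theorem pg_zero : pg k (0 : B k) = 0 := rfl
@[simp] theorem pa_neg (x : B k) : pa k (-x) = -pa k x := rfl
@[simp] theorem pc_neg (x : B k) : pc k (-x) = -pc k x := rfl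
@[simp] theorem pf_neg (x : B k) : pf k (-x) = -pf k x := rfl
@[simp] theorem pg_neg (x : B k) : pg k (-x) = -pg k x := rfl
@[simp] theorem pa_smul (r : k) (y : B k) : pa k (r • y) = r * pa k y := rfl
@[simp] theorem pc_smul (r : k) (y : B k) : pc k (r • y) = r * pc k y := rfl
@[simp] theorem pf_smul (r : k) (y : B k) : pf k (r • y) = C r * pf k y := by
  rw [← smul_eq_C_mul]; rfl
@[simp] theorem pg_smul (r : k) (y : B k) : pg k (r • y) = C r * pg k y := by
  rw [← smul_eq_C_mul]; rfl

instance : Mul (B k) :=
  ⟨fun x y => mkB k 0 (pa k x * pa k y)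
    (C (pa k x * pa k y) + C (pa k x) * (C (pc k y) + X * pf k y))
    (C (pa k y) * (C (pc k x) + X * pg k x))⟩

@[simp] theorem pa_mul (x y : B k) : pa k (x * y) = 0 := rfl
@[simp] theorem pc_mul (x y : B k) : pc k (x * y) = pa k x * pa k y := rfl
@[simp] theorem pf_mul (x y : B k) : pf k (x * y) =
    C (pa k x * pa k y) + C (pa k x) * (C (pc k y) + X * pf k y) := rfl
@[simp] theorem pg_mul (x y : B k) : pg k (x * y) = C (pa k y) * (C (pc k x) + X * pg k x) := rfl

instance : NonUnitalNonAssocRing (B k) :=
  { (inferInstance : AddCommGroup (B k)), (inferInstance : Mul (B k)) with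
    left_distrib := by
      intro a b c
      apply B_ext
      · change (0 : k) = 0 + 0
        simp
      · change pa k a * (pa k b + pa k c) = pa k a * pa k b + pa k a * pa k c
        ring
      · change C (pa k a * (pa k b + pa k c)) +
          C (pa k a) * (C (pc k b + pc k c) + X * (pf k b + pf k c)) =
          (C (pa k a * pa k b) + C (pa k a) * (C (pc k b) + X * pf k b)) +
          (C (pa k a * pa k c) + C (pa k a) * (C (pc k c) + X * pf k c))
        simp only [C_add, C_mul]
        ring
      · change C (pa k b + pa k c) * (C (pc k a) + X * pg k a) =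
          C (pa k b) * (C (pc k a) + X * pg k a) + C (pa k c) * (C (pc k a) + X * pg k a)
        simp only [C_add, C_mul]
        ring
    right_distrib := by
      intro a b c
      apply B_ext
      · change (0 : k) = 0 + 0
        simp
      · change (pa k a + pa k b) * pa k c = pa k a * pa k c + pa k b * pa k c
        ring
      · change C ((pa k a + pa k b) * pa k c) +
          C (pa k a + pa k b) * (C (pc k c) + X * pf k c) =
          (C (pa k a * pa k c) + C (pa k a) * (C (pc k c) + X * pf k c)) +
          (C (pa k b * pa k c) + C (pa k b) * (C (pc k c) + X * pf k c))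
        simp only [C_add, C_mul]
        ring
      · change C (pa k c) * (C (pc k a + pc k b) + X * (pg k a + pg k b)) =
          C (pa k c) * (C (pc k a) + X * pg k a) + C (pa k c) * (C (pc k b) + X * pg k b)
        simp only [C_add, C_mul]
        ring
    zero_mul := by
      intro a
      apply B_ext
      · rfl
      · change (0 : k) * pa k a = 0
        simp
      · change C ((0 : k) * pa k a) + C (0 : k) * (C (pc k a) + X * pf k a) = 0
        simp
      · change C (pa k a) * (C (0 : k) + X * 0) = 0
        simp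
    mul_zero := by
      intro a
      apply B_ext
      · rfl
      · change pa k a * (0 : k) = 0
        simp
      · change C (pa k a * 0) + C (pa k a) * (C (0 : k) + X * 0) = 0
        simp
      · change C (0 : k) * (C (pc k a) + X * pg k a) = 0
        simp }

instance : IsScalarTower k (B k) (B k) := by
  constructor
  intro r a b
  apply B_ext
  · change (0 : k) = r * 0
    simp
  · change (r * pa k a) * pa k b = r * (pa k a * pa k b)
    ring
  · change C ((r * pa k a) * pa k b) + C (r * pa k a) * (C (pc k b) + X * pf k b) =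
      pf k (r • (a * b))
    rw [pf_smul, pf_mul]
    simp only [C_mul]
    ring
  · change C (pa k b) * (C (r * pc k a) + X * pg k (r • a)) = pg k (r • (a * b))
    rw [pg_smul, pg_smul, pg_mul]
    simp only [C_mul]
    ring

instance : SMulCommClass k (B k) (B k) := by
  constructor
  intro r a b
  apply B_ext
  · change r * 0 = (0 : k)
    simp
  · change r * (pa k a * pa k b) = pa k a * (r * pa k b)
    ring
  · change pf k (r • (a * b)) =
      C (pa k a * (r * pa k b)) + C (pa k a) * (C (r * pc k b) + X * pf k (r • b))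
    rw [pf_smul, pf_smul, pf_mul]
    simp only [C_mul]
    ring
  · change pg k (r • (a * b)) = C (r * pa k b) * (C (pc k a) + X * pg k a)
    rw [pg_smul, pg_mul]
    simp only [C_mul]
    ring

theorem B_inVariety : InVariety k (theIds k) (B k) := by
  rw [inVariety_iff]
  refine ⟨fun a b c d => ?_, fun a b c d => ?_, fun a b c d => ?_⟩ <;>
    apply B_ext <;> simp

end Model

noncomputable section ZeroAlg

variable (k : Type u) [CommRing k]

/-- The module `k` with zero multiplication. -/
def Z0 : Type u := k

instance : AddCommGroup (Z0 k) := inferInstanceAs (AddCommGroup k)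
instance : Module k (Z0 k) := inferInstanceAs (Module k k)
instance : Mul (Z0 k) := ⟨fun _ _ => 0⟩

variable {k}

theorem z0_mul (a b : Z0 k) : a * b = 0 := rfl

/-- The identity map, viewed as a map to `Z0 k`. -/
def toZ (a : k) : Z0 k := a

/-- The identity map, viewed as a map from `Z0 k`. -/
def ofZ (a : Z0 k) : k := a

@[simp] theorem ofZ_toZ (a : k) : ofZ (toZ a) = a := rfl

theorem ofZ_smul (r : k) (a : Z0 k) : ofZ (r • a) = r * ofZ a := rfl

instance : NonUnitalNonAssocRing (Z0 k) :=
  { (inferInstance : AddCommGroup (Z0 k)), (inferInstance : Mul (Z0 k)) with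
    left_distrib := fun _ _ _ => (add_zero (0 : Z0 k)).symm
    right_distrib := fun _ _ _ => (add_zero (0 : Z0 k)).symm
    zero_mul := fun _ => rfl
    mul_zero := fun _ => rfl }

instance : IsScalarTower k (Z0 k) (Z0 k) := ⟨fun r _ _ => (smul_zero r).symm⟩
instance : SMulCommClass k (Z0 k) (Z0 k) := ⟨fun r _ _ => smul_zero r⟩

theorem Z0_inVariety : InVariety k (theIds k) (Z0 k) := by
  rw [inVariety_iff]
  exact ⟨fun _ _ _ _ => rfl, fun _ _ _ _ => rfl, fun _ _ _ _ => rfl⟩

end ZeroAlg

noncomputable section NotFree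

variable {k : Type u} [CommRing k]

/-- The element `z`. -/
def zB : B k := mkB k 1 0 0 0

/-- The element `y`. -/
def yB : B k := mkB k 0 1 0 0

theorem zz_eq : (zB : B k) * zB = yB + zB * yB := by
  apply B_ext <;> simp [zB, yB]

theorem B_decomp (x : B k) : x = pa k x • zB + (pc k x • yB +
    (zB * mkB k 0 ((pf k x).coeff 0) (pf k x).divX 0 +
      mkB k 0 ((pg k x).coeff 0) 0 (pg k x).divX * zB)) := by
  apply B_ext
  · simp [zB, yB]
  · simp [zB, yB]
  · have := divX_mul_X_add (pf k x)
    simp only [zB, yB, pf_add, pf_smul, pf_mk, pf_mul, pa_mk, pc_mk, mul_zero, zero_mul, C_0, C_1,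
      one_mul, zero_add, add_zero]
    rw [add_comm, mul_comm]
    exact this.symm
  · have := divX_mul_X_add (pg k x)
    simp only [zB, yB, pg_add, pg_smul, pg_mk, pg_mul, pa_mk, pc_mk, mul_zero, C_0, C_1,
      one_mul, zero_add, add_zero]
    rw [add_comm, mul_comm]
    exact this.symm

theorem hom_Z0 (φ : B k →ₙₐ[k] Z0 k) (x : B k) : φ x = pa k x • φ zB := by
  have hm : ∀ a b : B k, φ (a * b) = 0 := fun a b => by rw [map_mul, z0_mul]
  have hy : φ (yB : B k) = 0 := by
    have h := congrArg φ (zz_eq (k := k))
    rw [map_add, hm, hm, add_zero] at h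
    exact h.symm
  conv_lhs => rw [B_decomp x]
  rw [map_add, map_add, map_add, map_smul, map_smul, hy, hm, hm, smul_zero, add_zero, add_zero,
    add_zero]

/-- The polynomial `c + X f`. -/
def lB (x : B k) : k[X] := C (pc k x) + X * pf k x

/-- The polynomial `c + X g`. -/
def rB (x : B k) : k[X] := C (pc k x) + X * pg k x

theorem lB_mul (x y : B k) : lB (x * y) = C (pa k x * pa k y) * (1 + X) + C (pa k x) * X * lB y := by
  simp only [lB, pc_mul, pf_mul]
  ring

theorem rB_mul (x y : B k) : rB (x * y) = C (pa k x * pa k y) + C (pa k y) * X * rB x := by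
  simp only [rB, pc_mul, pg_mul]
  ring

theorem lB_add (x y : B k) : lB (x + y) = lB x + lB y := by
  simp only [lB, pc_add, pf_add, C_add]
  ring

theorem rB_add (x y : B k) : rB (x + y) = rB x + rB y := by
  simp only [rB, pc_add, pg_add, C_add]
  ring

theorem lB_smul (r : k) (x : B k) : lB (r • x) = C r * lB x := by
  simp only [lB, pc_smul, pf_smul, C_mul]
  ring

theorem rB_smul (r : k) (x : B k) : rB (r • x) = C r * rB x := by
  simp only [rB, pc_smul, pg_smul, C_mul]
  ring

/-- A subalgebra containing a given element `b`. -/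
def subT (b : B k) : NonUnitalSubalgebra k (B k) where
  carrier := {x | ∃ t : k, ∃ p q : k[X], pa k x = t * pa k b ∧
    lB x = C t * lB b + p * lB (b * b) ∧ rB x = C t * rB b + q * rB (b * b)}
  zero_mem' := ⟨0, 0, 0, by simp, by simp [lB], by simp [rB]⟩
  add_mem' := by
    rintro x y ⟨t, p, q, h1, h2, h3⟩ ⟨t', p', q', h1', h2', h3'⟩
    refine ⟨t + t', p + p', q + q', ?_, ?_, ?_⟩
    · rw [pa_add, h1, h1']; ring
    · rw [lB_add, h2, h2', C_add]; ring
    · rw [rB_add, h3, h3', C_add]; ring
  mul_mem' := by
    rintro x y ⟨t, p, q, h1, h2, h3⟩ ⟨t', p', q', h1', h2', h3'⟩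
    refine ⟨0, C (t * t') + C (t * pa k b) * X * p', C (t * t') + C (t' * pa k b) * X * q, ?_, ?_, ?_⟩
    · rw [pa_mul]; ring
    · rw [lB_mul, h1, h1', h2', lB_mul]
      simp only [C_mul, C_0]
      ring
    · rw [rB_mul, h1, h1', h3, rB_mul]
      simp only [C_mul, C_0]
      ring
  smul_mem' := by
    rintro c x ⟨t, p, q, h1, h2, h3⟩
    refine ⟨c * t, C c * p, C c * q, ?_, ?_, ?_⟩
    · rw [pa_smul, h1]; ring
    · rw [lB_smul, h2, C_mul]; ring
    · rw [rB_smul, h3, C_mul]; ring

theorem mem_subT (b : B k) : b ∈ subT b := ⟨1, 0, 0, by simp, by simp, by simp⟩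

theorem not_gen [IsDomain k] (b : B k) : ¬ ∀ x : B k, x ∈ subT b := by
  intro h
  obtain ⟨t, p, q, h1, -, -⟩ := h zB
  have hmu : pa k b ≠ 0 := by
    intro h0
    rw [h0, mul_zero] at h1
    exact one_ne_zero h1
  obtain ⟨t', p', q', h1', h2', h3'⟩ := h yB
  have ht' : t' = 0 := by
    have h4 : t' * pa k b = 0 := h1'.symm
    rcases mul_eq_zero.1 h4 with h5 | h5
    · exact h5
    · exact absurd h5 hmu
  have hl : p' * lB (b * b) = 1 := by
    have h5 : lB (yB : B k) = 1 := by simp [lB, yB]
    rw [h5, ht', C_0, zero_mul, zero_add] at h2'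
    exact h2'.symm
  have hr : q' * rB (b * b) = 1 := by
    have h5 : rB (yB : B k) = 1 := by simp [rB, yB]
    rw [h5, ht', C_0, zero_mul, zero_add] at h3'
    exact h3'.symm
  have hdl : natDegree (lB (b * b)) = 0 := natDegree_eq_zero_of_isUnit (IsUnit.of_mul_eq_one_right _ hl)
  have hdr : natDegree (rB (b * b)) = 0 := natDegree_eq_zero_of_isUnit (IsUnit.of_mul_eq_one_right _ hr)
  have e1 : (lB (b * b)).coeff 1 = 0 := coeff_eq_zero_of_natDegree_lt (by rw [hdl]; exact one_pos)
  have e2 : (rB (b * b)).coeff 1 = 0 := coeff_eq_zero_of_natDegree_lt (by rw [hdr]; exact one_pos)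
  have f1 : (lB (b * b)).coeff 1 = pa k b * pa k b + pa k b * pc k b := by
    simp [lB]
  have f2 : (rB (b * b)).coeff 1 = pa k b * pc k b := by
    simp [rB]
  rw [f2] at e2
  have hc : pc k b = 0 := by
    rcases mul_eq_zero.1 e2 with h5 | h5
    · exact absurd h5 hmu
    · exact h5
  rw [f1, hc, mul_zero, add_zero] at e1
  exact hmu (mul_self_eq_zero.1 e1)

theorem B_not_free [IsDomain k] {Y : Type w} (j : Y → B k) :
    ¬ IsFreeOn k (theIds k) (B k) j := by
  classical
  intro h
  by_cases hY : ∃ y1 y2 : Y, y1 ≠ y2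
  · obtain ⟨y1, y2, hne⟩ := hY
    obtain ⟨φ, hφ, -⟩ := h.univ (Z0 k) Z0_inVariety (fun y => toZ (if y = y1 then 1 else 0))
    obtain ⟨ψ, hψ, -⟩ := h.univ (Z0 k) Z0_inVariety (fun y => toZ (if y = y2 then 1 else 0))
    have a1 : pa k (j y1) * ofZ (φ zB) = 1 := by
      rw [← ofZ_smul, ← hom_Z0, hφ y1, ofZ_toZ, if_pos rfl]
    have a2 : pa k (j y2) * ofZ (φ zB) = 0 := by
      rw [← ofZ_smul, ← hom_Z0, hφ y2, ofZ_toZ, if_neg (fun h => hne h.symm)]
    have a3 : pa k (j y2) * ofZ (ψ zB) = 1 := by
      rw [← ofZ_smul, ← hom_Z0, hψ y2, ofZ_toZ, if_pos rfl]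
    rcases mul_eq_zero.1 a2 with h5 | h5
    · rw [h5, zero_mul] at a3
      exact zero_ne_one a3
    · rw [h5, mul_zero] at a1
      exact zero_ne_one a1
  · push Not at hY
    have : ∃ b : B k, ∀ y, j y ∈ subT b := by
      rcases isEmpty_or_nonempty Y with hE | ⟨⟨y0⟩⟩
      · exact ⟨0, fun y => (hE.false y).elim⟩
      · exact ⟨j y0, fun y => by rw [hY y y0]; exact mem_subT _⟩
    obtain ⟨b, hb⟩ := this
    exact not_gen b (fun x => mem_of_gen h (subT b) hb x)

end NotFree

noncomputable section Retract

variable {k : Type u} [CommRing k]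

section A2

variable {A : Type u} [NonUnitalNonAssocRing A] [Module k A] [IsScalarTower k A A]
  [SMulCommClass k A A]

variable (k A) in
/-- The span of all products. -/
def A2 : Submodule k A := Submodule.span k {x | ∃ a b : A, a * b = x}

theorem mul_mem_A2 (a b : A) : a * b ∈ A2 k A := Submodule.subset_span ⟨a, b, rfl⟩

variable (hA : InVariety k (theIds k) A)

include hA in
theorem A2_mul_A2 {p q : A} (hp : p ∈ A2 k A) (hq : q ∈ A2 k A) : p * q = 0 := by
  have h := ((inVariety_iff k A).1 hA).1
  refine Submodule.span_induction (p := fun p _ => p * q = 0) ?_ ?_ ?_ ?_ hp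
  · rintro _ ⟨a, b, rfl⟩
    refine Submodule.span_induction (p := fun q _ => (a * b) * q = 0) ?_ ?_ ?_ ?_ hq
    · rintro _ ⟨c, d, rfl⟩
      exact h a b c d
    · exact mul_zero _
    · intro x y _ _ hx hy
      rw [mul_add, hx, hy, add_zero]
    · intro r x _ hx
      rw [mul_smul_comm, hx, smul_zero]
  · exact zero_mul _
  · intro x y _ _ hx hy
    rw [add_mul, hx, hy, add_zero]
  · intro r x _ hx
    rw [smul_mul_assoc, hx, smul_zero]

include hA in
theorem left_right {p : A} (hp : p ∈ A2 k A) (a d : A) : a * (p * d) = 0 := by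
  have h := ((inVariety_iff k A).1 hA).2.1
  refine Submodule.span_induction (p := fun p _ => a * (p * d) = 0) ?_ ?_ ?_ ?_ hp
  · rintro _ ⟨b, c, rfl⟩
    exact h a b c d
  · rw [zero_mul, mul_zero]
  · intro x y _ _ hx hy
    rw [add_mul, mul_add, hx, hy, add_zero]
  · intro r x _ hx
    rw [smul_mul_assoc, mul_smul_comm, hx, smul_zero]

include hA in
theorem right_left {p : A} (hp : p ∈ A2 k A) (a d : A) : (a * p) * d = 0 := by
  have h := ((inVariety_iff k A).1 hA).2.2
  refine Submodule.span_induction (p := fun p _ => (a * p) * d = 0) ?_ ?_ ?_ ?_ hp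
  · rintro _ ⟨b, c, rfl⟩
    exact h a b c d
  · rw [mul_zero, zero_mul]
  · intro x y _ _ hx hy
    rw [mul_add, add_mul, hx, hy, add_zero]
  · intro r x _ hx
    rw [mul_smul_comm, smul_mul_assoc, hx, smul_zero]

end A2

section Section

variable {A : Type u} [NonUnitalNonAssocRing A] [Module k A] [IsScalarTower k A A]
  [SMulCommClass k A A]

/-- `f(L) w`, where `L` is left multiplication by `z`. -/
def evL (z w : A) : k[X] →ₗ[k] A :=
  (LinearMap.applyₗ w).comp (aeval (R := k) (LinearMap.mulLeft k z)).toLinearMap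

/-- `f(R) w`, where `R` is right multiplication by `z`. -/
def evR (z w : A) : k[X] →ₗ[k] A :=
  (LinearMap.applyₗ w).comp (aeval (R := k) (LinearMap.mulRight k z)).toLinearMap

theorem evL_C (z w : A) (r : k) : evL z w (C r) = r • w := by
  simp [evL]

theorem evR_C (z w : A) (r : k) : evR z w (C r) = r • w := by
  simp [evR]

theorem evL_X_mul (z w : A) (f : k[X]) : evL z w (X * f) = z * evL z w f := by
  simp [evL]

theorem evR_X_mul (z w : A) (f : k[X]) : evR z w (X * f) = evR z w f * z := by
  simp [evR]

theorem evL_mem (z w : A) (hw : w ∈ A2 k A) (f : k[X]) : evL z w f ∈ A2 k A := by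
  induction f using Polynomial.induction_on' with
  | add p q hp hq => rw [map_add]; exact Submodule.add_mem _ hp hq
  | monomial n a =>
    induction n with
    | zero => rw [monomial_zero_left, evL_C]; exact Submodule.smul_mem _ _ hw
    | succ n ih =>
      rw [show monomial (n + 1) a = X * monomial n a from (X_mul_monomial n a).symm, evL_X_mul]
      exact mul_mem_A2 _ _

theorem evR_mem (z w : A) (hw : w ∈ A2 k A) (f : k[X]) : evR z w f ∈ A2 k A := by
  induction f using Polynomial.induction_on' with
  | add p q hp hq => rw [map_add]; exact Submodule.add_mem _ hp hq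
  | monomial n a =>
    induction n with
    | zero => rw [monomial_zero_left, evR_C]; exact Submodule.smul_mem _ _ hw
    | succ n ih =>
      rw [show monomial (n + 1) a = X * monomial n a from (X_mul_monomial n a).symm, evR_X_mul]
      exact mul_mem_A2 _ _

/-- The correction term. -/
def corr (z y : A) : A := -(z * (z * z)) + z * y + z * (z * y)

/-- The element `Z`. -/
def bigZ (z y : A) : A := z + corr z y

/-- The element `Y`. -/
def bigY (z y : A) : A := z * z - z * (z * z) + z * (z * y) + (z * y) * z

theorem corr_mem (z y : A) : corr z y ∈ A2 k A :=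
  Submodule.add_mem _ (Submodule.add_mem _ (Submodule.neg_mem _ (mul_mem_A2 _ _))
    (mul_mem_A2 _ _)) (mul_mem_A2 _ _)

theorem bigY_mem (z y : A) : bigY z y ∈ A2 k A :=
  Submodule.add_mem _ (Submodule.add_mem _ (Submodule.sub_mem _ (mul_mem_A2 _ _)
    (mul_mem_A2 _ _)) (mul_mem_A2 _ _)) (mul_mem_A2 _ _)

theorem bigZ_sq (hA : InVariety k (theIds k) A) (z y : A) :
    bigZ z y * bigZ z y = bigY z y + z * bigY z y := by
  have h1 : corr z y * corr z y = 0 := A2_mul_A2 hA (corr_mem (k := k) z y) (corr_mem z y)
  have h2 : (z * (z * z)) * z = 0 := right_left hA (mul_mem_A2 z z) z z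
  have h3 : (z * (z * y)) * z = 0 := right_left hA (mul_mem_A2 z y) z z
  have h4 : z * ((z * y) * z) = 0 := left_right hA (mul_mem_A2 z y) z z
  have e1 : bigZ z y * bigZ z y = z * z + z * corr z y + corr z y * z := by
    rw [bigZ, add_mul, mul_add, mul_add, h1, add_zero]
  have e2 : corr z y * z = (z * y) * z := by
    rw [corr, add_mul, add_mul, neg_mul, h2, h3, neg_zero, zero_add, add_zero]
  have e3 : z * corr z y = -(z * (z * (z * z))) + z * (z * y) + z * (z * (z * y)) := by
    rw [corr, mul_add, mul_add, mul_neg]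
  have e4 : z * bigY z y = z * (z * z) - z * (z * (z * z)) + z * (z * (z * y)) := by
    rw [bigY, mul_add, mul_add, mul_sub, h4, add_zero]
  rw [e1, e2, e3, e4, bigY]
  abel

/-- The section, as a linear map. -/
def secL (z y : A) (x : B k) : A :=
  pa k x • bigZ z y + (pc k x • bigY z y + z * evL z (bigY z y) (pf k x) +
    evR z (bigY z y) (pg k x) * z)

/-- The part of the section in the span of products. -/
def secP (z y : A) (x : B k) : A :=
  pc k x • bigY z y + z * evL z (bigY z y) (pf k x) + evR z (bigY z y) (pg k x) * z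

theorem secL_eq (z y : A) (x : B k) : secL z y x = pa k x • bigZ z y + secP z y x := rfl

theorem secP_mem (z y : A) (x : B k) : secP z y x ∈ A2 k A :=
  Submodule.add_mem _ (Submodule.add_mem _ (Submodule.smul_mem _ _ (bigY_mem z y))
    (mul_mem_A2 _ _)) (mul_mem_A2 _ _)

theorem z_secP (hA : InVariety k (theIds k) A) (z y : A) (x : B k) :
    z * secP z y x = z * (pc k x • bigY z y + z * evL z (bigY z y) (pf k x)) := by
  rw [secP, mul_add z _ (evR z (bigY z y) (pg k x) * z),
    left_right hA (evR_mem z _ (bigY_mem z y) _), add_zero]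

theorem secP_z (hA : InVariety k (theIds k) A) (z y : A) (x : B k) :
    secP z y x * z = (pc k x • bigY z y + evR z (bigY z y) (pg k x) * z) * z := by
  rw [secP, add_mul, add_mul, right_left hA (evL_mem z _ (bigY_mem z y) _), add_zero, ← add_mul]

theorem secL_mul (hA : InVariety k (theIds k) A) (z y : A) (x x' : B k) :
    secL z y (x * x') = secL z y x * secL z y x' := by
  have h1 : secP z y x * secP z y x' = 0 := A2_mul_A2 hA (secP_mem z y x) (secP_mem z y x')
  have h2 : corr z y * secP z y x' = 0 :=
    A2_mul_A2 hA (corr_mem (k := k) z y) (secP_mem z y x')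
  have h3 : secP z y x * corr z y = 0 :=
    A2_mul_A2 hA (secP_mem z y x) (corr_mem (k := k) z y)
  have e1 : bigZ z y * secP z y x' = z * secP z y x' := by
    rw [bigZ, add_mul, h2, add_zero]
  have e2 : secP z y x * bigZ z y = secP z y x * z := by
    rw [bigZ, mul_add, h3, add_zero]
  have e3 : secL z y x * secL z y x' =
      (pa k x * pa k x') • (bigY z y + z * bigY z y) + pa k x • (z * secP z y x') +
        pa k x' • (secP z y x * z) := by
    rw [secL_eq, secL_eq, add_mul, mul_add, mul_add, h1, add_zero, smul_mul_smul_comm,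
      bigZ_sq hA, smul_mul_assoc, mul_smul_comm, e1, e2]
  rw [e3, z_secP hA, secP_z hA]
  simp only [secL, pa_mul, pc_mul, pf_mul, pg_mul, zero_smul, zero_add, map_add, C_mul]
  simp only [← smul_eq_C_mul, map_smul, map_add, evL_C, evR_C, evL_X_mul, evR_X_mul]
  simp only [smul_add, mul_add, add_mul, mul_smul_comm, smul_mul_assoc, smul_smul]
  abel

theorem secL_add (z y : A) (x x' : B k) : secL z y (x + x') = secL z y x + secL z y x' := by
  simp only [secL, pa_add, pc_add, pf_add, pg_add, map_add, mul_add, add_mul, add_smul]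
  abel

theorem secL_smul (z y : A) (r : k) (x : B k) : secL z y (r • x) = r • secL z y x := by
  simp only [secL, pa_smul, pc_smul, pf_smul, pg_smul, ← smul_eq_C_mul, map_smul, mul_smul_comm,
    smul_mul_assoc, smul_add, mul_smul]

/-- The section as a homomorphism of algebras. -/
def secH (hA : InVariety k (theIds k) A) (z y : A) : B k →ₙₐ[k] A where
  toFun := secL z y
  map_smul' := fun c x => secL_smul z y c x
  map_zero' := by
    have h := secL_smul z y (0 : k) 0
    rw [zero_smul, zero_smul] at h
    exact h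
  map_add' := secL_add z y
  map_mul' := secL_mul hA z y

theorem map_evL {A' : Type u} [NonUnitalNonAssocRing A'] [Module k A'] [IsScalarTower k A' A']
    [SMulCommClass k A' A'] (φ : A →ₙₐ[k] A') (z w : A) (f : k[X]) :
    φ (evL z w f) = evL (φ z) (φ w) f := by
  induction f using Polynomial.induction_on' with
  | add p q hp hq => rw [map_add, map_add, map_add, hp, hq]
  | monomial n a =>
    induction n with
    | zero => rw [monomial_zero_left, evL_C, evL_C, map_smul]
    | succ n ih =>
      rw [show monomial (n + 1) a = X * monomial n a from (X_mul_monomial n a).symm, evL_X_mul,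
        evL_X_mul, map_mul, ih]

theorem map_evR {A' : Type u} [NonUnitalNonAssocRing A'] [Module k A'] [IsScalarTower k A' A']
    [SMulCommClass k A' A'] (φ : A →ₙₐ[k] A') (z w : A) (f : k[X]) :
    φ (evR z w f) = evR (φ z) (φ w) f := by
  induction f using Polynomial.induction_on' with
  | add p q hp hq => rw [map_add, map_add, map_add, hp, hq]
  | monomial n a =>
    induction n with
    | zero => rw [monomial_zero_left, evR_C, evR_C, map_smul]
    | succ n ih =>
      rw [show monomial (n + 1) a = X * monomial n a from (X_mul_monomial n a).symm, evR_X_mul,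
        evR_X_mul, map_mul, ih]

end Section

theorem zevL (f : k[X]) : (zB : B k) * evL zB yB f = mkB k 0 0 f 0 := by
  induction f using Polynomial.induction_on' with
  | add p q hp hq =>
    rw [map_add, mul_add, hp, hq]
    apply B_ext <;> simp
  | monomial n a =>
    induction n with
    | zero =>
      rw [monomial_zero_left, evL_C, mul_smul_comm]
      apply B_ext <;> simp [zB, yB]
    | succ n ih =>
      rw [show monomial (n + 1) a = X * monomial n a from (X_mul_monomial n a).symm, evL_X_mul, ih]
      apply B_ext <;> simp [zB]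

theorem evRz (f : k[X]) : evR (zB : B k) yB f * zB = mkB k 0 0 0 f := by
  induction f using Polynomial.induction_on' with
  | add p q hp hq =>
    rw [map_add, add_mul, hp, hq]
    apply B_ext <;> simp
  | monomial n a =>
    induction n with
    | zero =>
      rw [monomial_zero_left, evR_C, smul_mul_assoc]
      apply B_ext <;> simp [zB, yB]
    | succ n ih =>
      rw [show monomial (n + 1) a = X * monomial n a from (X_mul_monomial n a).symm, evR_X_mul, ih]
      apply B_ext <;> simp [zB]

theorem bigZ_B : bigZ (zB : B k) yB = zB := by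
  have h1 : (zB : B k) * (zB * zB) = mkB k 0 0 (1 + X) 0 := by
    apply B_ext <;> simp [zB]
  have h2 : (zB : B k) * yB = mkB k 0 0 1 0 := by
    apply B_ext <;> simp [zB, yB]
  rw [bigZ, corr, h1, h2]
  apply B_ext <;> simp [zB]

theorem bigY_B : bigY (zB : B k) yB = yB := by
  rw [bigY, sub_eq_add_neg]
  apply B_ext
  · rw [pa_add, pa_add, pa_add, pa_neg]
    simp [zB, yB]
  · rw [pc_add, pc_add, pc_add, pc_neg]
    simp [zB, yB]
  · rw [pf_add, pf_add, pf_add, pf_neg]
    simp [zB, yB]
  · rw [pg_add, pg_add, pg_add, pg_neg]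
    simp [zB, yB]

theorem pi_sec {A : Type u} [NonUnitalNonAssocRing A] [Module k A] [IsScalarTower k A A]
    [SMulCommClass k A A] (φ : A →ₙₐ[k] B k) (z y : A) (hz : φ z = zB) (hy : φ y = yB)
    (x : B k) : φ (secL z y x) = x := by
  have h1 : φ (bigZ z y) = zB := by
    rw [← bigZ_B (k := k), ← hz, ← hy]
    simp only [bigZ, corr, map_add, map_neg, map_mul]
  have h2 : φ (bigY z y) = yB := by
    rw [← bigY_B (k := k), ← hz, ← hy]
    simp only [bigY, map_add, map_sub, map_mul]
  rw [secL, map_add, map_add, map_add, map_smul, map_smul, map_mul, map_mul, map_evL, map_evR, h1,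
    h2, hz, zevL, evRz]
  apply B_ext <;> simp [zB, yB]

end Retract

/-- For every integral domain `k` (in particular for every principal ideal domain) there is a
variety of `k`-algebras cut out by multilinear identities, and a free algebra of this variety
with an idempotent endomorphism whose image is not free in this variety on any set. -/
theorem result (k : Type u) [CommRing k] [IsDomain k] :
    ∃ I : Set (FreeNonUnitalNonAssocAlgebra k ℕ), (∀ f ∈ I, IsMultilinear k f) ∧
      ∃ (F : Type u) (_ : NonUnitalNonAssocRing F) (_ : Module k F) (_ : IsScalarTower k F F)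
        (_ : SMulCommClass k F F) (X : Type) (ι : X → F), IsFreeOn k I F ι ∧
        ∃ e : F →ₙₐ[k] F, (∀ x, e (e x) = e x) ∧
          ∀ (Y : Type w) (j : Y → NonUnitalAlgHom.range e),
            ¬ IsFreeOn k I (NonUnitalAlgHom.range e) j := by
  refine ⟨theIds k, theIds_multilinear k, FreeV (theIds k) Bool, inferInstance, inferInstance,
    inferInstance, inferInstance, Bool, _, freeV_isFree (theIds k) Bool, ?_⟩
  have hF := freeV_inVariety (theIds k) Bool
  obtain ⟨φ, hφ, -⟩ := (freeV_isFree (theIds k) Bool).univ (B k) B_inVariety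
    (fun b => if b = true then zB else yB)
  set z : FreeV (theIds k) Bool := mkHom (theIds k) Bool (FreeNonUnitalNonAssocAlgebra.of k true)
    with hz
  set y : FreeV (theIds k) Bool := mkHom (theIds k) Bool (FreeNonUnitalNonAssocAlgebra.of k false)
    with hy
  have h1 : φ z = zB := by
    rw [hz, hφ true, if_pos rfl]
  have h2 : φ y = yB := by
    rw [hy, hφ false, if_neg (by simp)]
  have hps : ∀ x, φ (secH hF z y x) = x := pi_sec φ z y h1 h2
  refine ⟨(secH hF z y).comp φ, fun x => ?_, fun Y j hj => ?_⟩
  · show secH hF z y (φ (secH hF z y (φ x))) = secH hF z y (φ x)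
    rw [hps]
  · refine B_not_free (fun t => (φ.comp (NonUnitalSubalgebraClass.subtype _)) (j t))
      (transport hj (φ.comp (NonUnitalSubalgebraClass.subtype _))
        (NonUnitalAlgHom.codRestrict (secH hF z y) _ (fun b => ?_)) (fun x => ?_) (fun x => ?_))
    · refine ⟨secH hF z y b, ?_⟩
      show secH hF z y (φ (secH hF z y b)) = secH hF z y b
      rw [hps]
    · exact hps x
    · apply Subtype.ext
      obtain ⟨_, a, rfl⟩ := x
      show secH hF z y (φ (secH hF z y (φ a))) = secH hF z y (φ a)
      rw [hps]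

end Pool.Agent.Results.MP_ce47b3_al.RetractNotFree
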